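import Pool.Agent.Y63.NV.Stm2
import Pool.Agent.Y63.AWC.Wt

/-!
NV2-DGN3: assembly of the count of Dade, Glauberman and Nagao.
-/

set_option autoImplicit false

open scoped Classical

noncomputable section

namespace Pool.Agent.Y474.NV

open Pool.Agent.Y63.AWC (IsIrreducibleCharacter numDefectZero numDefectZero_congr)
open Pool.Agent.Y63.NV

/-- invariance under the group itself is automatic -/
theorem numInvDz_top (p : ℕ) (K : Type) [Group K] :
    numInvDz p (⊤ : Subgroup K) = numDefectZero p K := by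
  rw [← numDefectZero_congr (p := p) (Subgroup.topEquiv : (⊤ : Subgroup K) ≃* K)]
  unfold numInvDz numDefectZero
  refine Nat.card_congr (Equiv.subtypeEquivRight fun χ => ?_)
  constructor
  · rintro ⟨h1, h2, -⟩
    exact ⟨h1, h2⟩
  · rintro ⟨h1, h2⟩
    refine ⟨h1, h2, fun y a b hab => ?_⟩
    obtain ⟨V, i1, i2, i3, ρ, -, rfl⟩ := h1
    have h3 : b = ⟨y, Subgroup.mem_top y⟩ * a * ⟨y, Subgroup.mem_top y⟩⁻¹ := Subtype.ext hab
    rw [h3]
    exact ρ.char_conj _ _

section

variable {Y : Type} [Group Y]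

theorem cent_le (X R : Subgroup Y) :
    X ⊓ Subgroup.centralizer (R : Set Y) ≤ Subgroup.normalizer (R : Set Y) := by
  intro x hx
  have h1 := Subgroup.mem_centralizer_iff.1 hx.2
  rw [Subgroup.mem_normalizer_iff]
  intro r
  constructor
  · intro hr
    have h2 := h1 r hr
    rw [← h2, mul_inv_cancel_right]
    exact hr
  · intro hr
    have h2 := h1 _ hr
    have h3 : x * r = x * (x * r * x⁻¹) := by
      rw [← h2]
      group
    have h4 : r = x * r * x⁻¹ := mul_left_cancel h3
    rw [h4]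
    exact hr

/-- the map of the centralizer to the quotient of the normalizer -/
def kmap (X R : Subgroup Y) : ↥(X ⊓ Subgroup.centralizer (R : Set Y)) →*
    (Subgroup.normalizer (R : Set Y) ⧸ R.subgroupOf (Subgroup.normalizer (R : Set Y))) :=
  (QuotientGroup.mk' _).comp (Subgroup.inclusion (cent_le X R))

theorem kmap_bij (X R : Subgroup Y) [X.Normal] (h1 : X ⊔ R = ⊤) (h2 : X ⊓ R = ⊥) :
    Function.Bijective (kmap X R) := by
  constructor
  · rw [injective_iff_map_eq_one]
    intro k hk
    have h3 : (Subgroup.inclusion (cent_le X R) k) ∈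
        R.subgroupOf (Subgroup.normalizer (R : Set Y)) :=
      (QuotientGroup.eq_one_iff _).1 hk
    rw [Subgroup.mem_subgroupOf] at h3
    have h4 : (k : Y) ∈ X ⊓ R := ⟨k.2.1, h3⟩
    rw [h2, Subgroup.mem_bot] at h4
    exact Subtype.ext h4
  · intro q
    induction q using QuotientGroup.induction_on with
    | H n =>
      have h3 : (n : Y) ∈ X ⊔ R := by
        rw [h1]
        exact Subgroup.mem_top _
      obtain ⟨x, hx, r, hr, hxr⟩ := Subgroup.mem_sup_of_normal_left.1 h3
      have hxn : x = (n : Y) * r⁻¹ := by rw [← hxr, mul_inv_cancel_right]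
      have hxN : x ∈ Subgroup.normalizer (R : Set Y) := by
        rw [hxn]
        exact mul_mem n.2 (inv_mem (Subgroup.le_normalizer hr))
      have hxC : x ∈ Subgroup.centralizer (R : Set Y) := by
        rw [Subgroup.mem_centralizer_iff]
        intro s hs
        have h4 : x * s * x⁻¹ * s⁻¹ ∈ R :=
          mul_mem ((Subgroup.mem_normalizer_iff.1 hxN s).1 hs) (inv_mem hs)
        have h5 : x * s * x⁻¹ * s⁻¹ ∈ X := by
          have h6 : x * s * x⁻¹ * s⁻¹ = x * (s * x⁻¹ * s⁻¹) := by group
          rw [h6]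
          exact mul_mem hx (Subgroup.Normal.conj_mem inferInstance _ (inv_mem hx) s)
        have h7 : x * s * x⁻¹ * s⁻¹ ∈ X ⊓ R := ⟨h5, h4⟩
        rw [h2, Subgroup.mem_bot] at h7
        have h8 : x * s * x⁻¹ = s := by rwa [mul_inv_eq_one] at h7
        rw [mul_inv_eq_iff_eq_mul] at h8
        exact h8.symm
      refine ⟨⟨x, hx, hxC⟩, ?_⟩
      change QuotientGroup.mk _ = QuotientGroup.mk _
      rw [QuotientGroup.eq, Subgroup.mem_subgroupOf]
      change x⁻¹ * (n : Y) ∈ R
      rw [← hxr, inv_mul_cancel_left]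
      exact hr

/-- the local count at a complement -/
theorem locz_eq (p : ℕ) (X R : Subgroup Y) [X.Normal] (h1 : X ⊔ R = ⊤) (h2 : X ⊓ R = ⊥) :
    locz p R = numInvDz p (⊤ : Subgroup ↥(X ⊓ Subgroup.centralizer (R : Set Y))) := by
  rw [numInvDz_top]
  exact (numDefectZero_congr (p := p) (MulEquiv.ofBijective _ (kmap_bij X R h1 h2))).symm

end

theorem dgn (h1 : S_RED) (h2 : S_DGN1) (h3 : S_DGN2) : S_DGN := by
  intro p _ Y _ _ X _ hX
  obtain ⟨red⟩ := h1 p
  rw [h2 p (AlgebraicClosure (ZMod p)) red Y X hX, h3 p (AlgebraicClosure (ZMod p)) Y X hX]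
  refine finsum_congr fun R => ?_
  split_ifs with hR
  · rw [locz_eq p X R hR.2.1 hR.2.2]
    rw [h2 p (AlgebraicClosure (ZMod p)) red ↥(X ⊓ Subgroup.centralizer (R : Set Y)) ⊤]
    intro q
    refine ⟨0, ?_⟩
    induction q using QuotientGroup.induction_on with
    | H n =>
      rw [pow_zero, pow_one]
      exact (QuotientGroup.eq_one_iff _).2 (Subgroup.mem_top _)
  · rfl

end Pool.Agent.Y474.NV
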