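import Pool.Agent.Y773.NV.St1

/-!
Project NV, job SMO: splitting off the primes dividing `𝔣`. (helper474, for helper773.)
-/

set_option autoImplicit false

open Complex MeasureTheory NumberField

namespace Pool.Agent.Y474.NV

open Pool.Agent.Y773.NV

variable {K : Type} [Field K] [NumberField K]

theorem nm_mul (a b : Ideal (𝓞 K)) : nm (a * b) = nm a * nm b := by
  unfold nm
  rw [map_mul]
  push_cast
  rfl

theorem nm_one : nm (1 : Ideal (𝓞 K)) = 1 := by
  unfold nm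
  rw [map_one]
  norm_num

theorem nm_pow (a : Ideal (𝓞 K)) (k : ℕ) : nm (a ^ k) = nm a ^ k := by
  unfold nm
  rw [map_pow]
  push_cast
  rfl

theorem nm_pos {a : Ideal (𝓞 K)} (h : a ≠ ⊥) : 0 < nm a := by
  unfold nm
  have : Ideal.absNorm a ≠ 0 := by rwa [Ne, Ideal.absNorm_eq_zero_iff]
  exact_mod_cast Nat.pos_of_ne_zero this

theorem nm_one_le {a : Ideal (𝓞 K)} (h : a ≠ ⊥) : 1 ≤ nm a := by
  unfold nm
  have : Ideal.absNorm a ≠ 0 := by rwa [Ne, Ideal.absNorm_eq_zero_iff]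
  exact_mod_cast Nat.pos_of_ne_zero this

theorem nm_prime {p : Ideal (𝓞 K)} (h : Prime p) : 2 ≤ nm p := by
  unfold nm
  have h0 : Ideal.absNorm p ≠ 0 := by
    rw [Ne, Ideal.absNorm_eq_zero_iff]
    exact h.ne_zero
  have h1 : Ideal.absNorm p ≠ 1 := by
    rw [Ne, Ideal.absNorm_eq_one_iff]
    intro h2
    apply h.not_isUnit
    rw [h2, ← Ideal.one_eq_top]
    exact isUnit_one
  have : 2 ≤ Ideal.absNorm p := by omega
  exact_mod_cast this

theorem nm_le_of_dvd {a b : Ideal (𝓞 K)} (hb : b ≠ ⊥) (h : a ∣ b) : nm a ≤ nm b := by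
  obtain ⟨c, rfl⟩ := h
  have hc : c ≠ ⊥ := by
    rintro rfl
    exact hb (Ideal.mul_bot a)
  rw [nm_mul]
  have h1 := nm_one_le hc
  have h2 : 0 ≤ nm a := by unfold nm; positivity
  nlinarith

/-- finite Euler products -/
theorem euler (T : Finset (Ideal (𝓞 K))) : (∀ p ∈ T, Prime p) → ∀ S : Finset (Ideal (𝓞 K)),
    (∀ b ∈ S, b ≠ ⊥ ∧ ∀ p, Prime p → p ∣ b → p ∈ T) →
    ∑ b ∈ S, (nm b)⁻¹ ≤ ∏ p ∈ T, (1 - (nm p)⁻¹)⁻¹ := by
  classical
  induction T using Finset.induction_on with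
  | empty =>
    intro _ S hS
    have hsub : S ⊆ {1} := by
      intro b hb
      rw [Finset.mem_singleton]
      by_contra h1
      obtain ⟨h0, h2⟩ := hS b hb
      have hu : ¬ IsUnit b := fun h => h1 (Ideal.isUnit_iff.1 h ▸ Ideal.one_eq_top.symm)
      obtain ⟨i, hi, hib⟩ := WfDvdMonoid.exists_irreducible_factor hu h0
      have := h2 i hi.prime hib
      simp at this
    calc ∑ b ∈ S, (nm b)⁻¹ ≤ ∑ b ∈ ({1} : Finset (Ideal (𝓞 K))), (nm b)⁻¹ := by
          refine Finset.sum_le_sum_of_subset_of_nonneg hsub fun b _ _ => ?_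
          rw [inv_nonneg]
          unfold nm
          positivity
      _ = 1 := by rw [Finset.sum_singleton, nm_one, inv_one]
      _ ≤ _ := by simp
  | insert p T hp ih =>
    intro hT S hS
    have hpp : Prime p := hT p (Finset.mem_insert_self _ _)
    have hp2 := nm_prime hpp
    have hex : ∀ b : Ideal (𝓞 K), ∃ (n : ℕ) (a : Ideal (𝓞 K)), b ≠ ⊥ → (¬ p ∣ a ∧ b = p ^ n * a) := by
      intro b
      by_cases hb : b = ⊥
      · exact ⟨0, ⊥, fun h => absurd hb h⟩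
      · obtain ⟨n, a, h1, h2⟩ := WfDvdMonoid.max_power_factor hb hpp.irreducible
        exact ⟨n, a, fun _ => ⟨h1, h2⟩⟩
    choose k c hkc using hex
    set q : ℝ := (nm p)⁻¹ with hq
    have hq0 : 0 ≤ q := by positivity
    have hq1 : q < 1 := inv_lt_one_of_one_lt₀ (by linarith)
    have hinj : Set.InjOn (fun b => (k b, c b)) (S : Set (Ideal (𝓞 K))) := by
      intro b hb b' hb' h
      simp only [Prod.mk.injEq] at h
      have h1 := (hkc b (hS b hb).1).2
      have h2 := (hkc b' (hS b' hb').1).2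
      rw [h1, h2, h.1, h.2]
    have e1 : ∑ b ∈ S, (nm b)⁻¹ =
        ∑ x ∈ S.image (fun b => (k b, c b)), q ^ x.1 * (nm x.2)⁻¹ := by
      rw [Finset.sum_image hinj]
      refine Finset.sum_congr rfl fun b hb => ?_
      have h1 := (hkc b (hS b hb).1).2
      conv_lhs => rw [h1]
      rw [nm_mul, nm_pow, mul_inv, hq, inv_pow]
    have e2 : ∑ x ∈ S.image (fun b => (k b, c b)), q ^ x.1 * (nm x.2)⁻¹ ≤
        ∑ x ∈ (S.image k) ×ˢ (S.image c), q ^ x.1 * (nm x.2)⁻¹ := by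
      refine Finset.sum_le_sum_of_subset_of_nonneg ?_ fun x _ _ => ?_
      · intro x hx
        obtain ⟨b, hb, rfl⟩ := Finset.mem_image.1 hx
        exact Finset.mem_product.2 ⟨Finset.mem_image_of_mem _ hb, Finset.mem_image_of_mem _ hb⟩
      · have : 0 ≤ nm x.2 := by unfold nm; positivity
        positivity
    have e3 : ∑ x ∈ (S.image k) ×ˢ (S.image c), q ^ x.1 * (nm x.2)⁻¹ =
        (∑ n ∈ S.image k, q ^ n) * ∑ a ∈ S.image c, (nm a)⁻¹ := by
      rw [Finset.sum_mul_sum, Finset.sum_product]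
    have e4 : ∑ n ∈ S.image k, q ^ n ≤ (1 - q)⁻¹ := by
      rw [← tsum_geometric_of_lt_one hq0 hq1]
      exact (summable_geometric_of_lt_one hq0 hq1).sum_le_tsum _ (fun n _ => by positivity)
    have e5 : ∑ a ∈ S.image c, (nm a)⁻¹ ≤ ∏ p ∈ T, (1 - (nm p)⁻¹)⁻¹ := by
      refine ih (fun p' hp' => hT p' (Finset.mem_insert_of_mem hp')) _ fun a ha => ?_
      obtain ⟨b, hb, rfl⟩ := Finset.mem_image.1 ha
      obtain ⟨hb0, hbp⟩ := hS b hb
      obtain ⟨h1, h2⟩ := hkc b hb0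
      refine ⟨?_, fun p' hp' hd => ?_⟩
      · intro h
        rw [h, Ideal.mul_bot] at h2
        exact hb0 h2
      · have h3 : p' ∣ b := by
          rw [h2]
          exact Dvd.dvd.mul_left hd _
        rcases Finset.mem_insert.1 (hbp p' hp' h3) with h4 | h4
        · rw [h4] at hd
          exact absurd hd h1
        · exact h4
    rw [e1, Finset.prod_insert hp]
    refine e2.trans ?_
    rw [e3]
    refine mul_le_mul e4 e5 (Finset.sum_nonneg fun a _ => ?_) (inv_nonneg.2 (by linarith))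
    rw [inv_nonneg]
    unfold nm
    positivity

/-- the product of a finite set of primes dividing an ideal divides it -/
theorem idl_dvd (E : Finset (Ideal (𝓞 K))) (hE : ∀ p ∈ E, Prime p) {a : Ideal (𝓞 K)}
    (h : ∀ p ∈ E, p ∣ a) : (∏ p ∈ E, p) ∣ a := by
  classical
  refine Finset.prod_primes_dvd a hE h

theorem nm_prod (E : Finset (Ideal (𝓞 K))) : nm (∏ p ∈ E, p) = nA nm E := by
  classical
  unfold nA
  induction E using Finset.induction_on with
  | empty => rw [Finset.prod_empty, Finset.prod_empty, nm_one]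
  | insert p E hp ih => rw [Finset.prod_insert hp, Finset.prod_insert hp, nm_mul, ih]

theorem t_smo : St_SMO := by
  classical
  intro K _ _ M 𝔣 hM h𝔣
  have hset : {𝔭 : Ideal (𝓞 K) | Prime 𝔭 ∧ 𝔭 ∣ 𝔣} = (((dvs 𝔣).filter Prime : Finset (Ideal (𝓞 K))) :
      Set (Ideal (𝓞 K))) := by
    ext p
    rw [Finset.coe_filter, Set.mem_ofPred_eq, Set.mem_ofPred_eq, mem_dvs h𝔣, and_comm]
  rw [hset, finprod_mem_coe_finset]
  set Q := (dvs 𝔣).filter Prime with hQ
  have hQp : ∀ p ∈ Q, Prime p := fun p hp => (Finset.mem_filter.1 hp).2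
  have hfac : ∀ p : Ideal (𝓞 K), Prime p → 0 < 1 - 1 / nm p := by
    intro p hp
    have h2 := nm_prime hp
    have : 1 / nm p < 1 := by
      rw [div_lt_one (by linarith)]
      linarith
    linarith
  have hD : 0 < ∏ p ∈ Q, (1 - 1 / nm p) := Finset.prod_pos fun p hp => hfac p (hQp p hp)
  set D := ∏ p ∈ Q, (1 - 1 / nm p) with hDdef
  set g : Ideal (𝓞 K) → Finset (Ideal (𝓞 K)) := fun a => (Pr 𝔣 M).filter (fun p => p ∣ a) with hg
  have hgp : ∀ a, ∀ p ∈ g a, Prime p ∧ p ∣ a ∧ p ∈ Pr 𝔣 M := by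
    intro a p hp
    obtain ⟨h1, h2⟩ := Finset.mem_filter.1 hp
    exact ⟨(mem_Pr.1 h1).1, h2, h1⟩
  have hgd : ∀ a, (∏ p ∈ g a, p) ∣ a := fun a =>
    idl_dvd _ (fun p hp => (hgp a p hp).1) (fun p hp => (hgp a p hp).2.1)
  have hmaps : ∀ a ∈ IdM K M, g a ∈ SM (Pr 𝔣 M) nm M := by
    intro a ha
    obtain ⟨ha0, haM⟩ := mem_IdM.1 ha
    unfold SM
    rw [Finset.mem_filter, Finset.mem_powerset]
    refine ⟨Finset.filter_subset _ _, ?_⟩
    rw [← nm_prod]
    exact (nm_le_of_dvd ha0 (hgd a)).trans haM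
  rw [← Finset.sum_fiberwise_of_maps_to hmaps]
  unfold GS
  rw [Finset.mul_sum]
  refine Finset.sum_le_sum fun E hE => ?_
  -- one fibre
  have hEp : ∀ p ∈ E, Prime p ∧ ¬ p ∣ 𝔣 := by
    intro p hp
    unfold SM at hE
    rw [Finset.mem_filter, Finset.mem_powerset] at hE
    obtain ⟨h1, h2, -⟩ := mem_Pr.1 (hE.1 hp)
    exact ⟨h1, h2⟩
  have hEprod : (∏ p ∈ E, p) ≠ ⊥ := by
    rw [← Ideal.zero_eq_bot]
    exact Finset.prod_ne_zero_iff.2 fun p hp => (hEp p hp).1.ne_zero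
  have hdisj : Disjoint Q E := by
    rw [Finset.disjoint_left]
    intro p hp hp'
    exact (hEp p hp').2 ((mem_dvs h𝔣).1 (Finset.mem_filter.1 hp).1)
  set F := (IdM K M).filter (fun a => g a = E) with hF
  have hFq : ∀ a : Ideal (𝓞 K), ∃ b : Ideal (𝓞 K), a ∈ F → a = (∏ p ∈ E, p) * b := by
    intro a
    by_cases ha : a ∈ F
    · have h1 := hgd a
      rw [(Finset.mem_filter.1 ha).2] at h1
      obtain ⟨b, hb⟩ := h1
      exact ⟨b, fun _ => hb⟩
    · exact ⟨a, fun h => absurd h ha⟩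
  choose β hβ using hFq
  have hinj : Set.InjOn β (F : Set (Ideal (𝓞 K))) := by
    intro a ha a' ha' h
    rw [hβ a ha, hβ a' ha', h]
  have e1 : ∑ a ∈ F, (nm a)⁻¹ = (nA nm E)⁻¹ * ∑ b ∈ F.image β, (nm b)⁻¹ := by
    rw [Finset.sum_image hinj, Finset.mul_sum]
    refine Finset.sum_congr rfl fun a ha => ?_
    conv_lhs => rw [hβ a ha]
    rw [nm_mul, nm_prod, mul_inv]
  have e2 : ∑ b ∈ F.image β, (nm b)⁻¹ ≤ ∏ p ∈ Q ∪ E, (1 - (nm p)⁻¹)⁻¹ := by
    refine euler _ ?_ _ ?_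
    · intro p hp
      rcases Finset.mem_union.1 hp with h | h
      · exact hQp p h
      · exact (hEp p h).1
    · intro b hb
      obtain ⟨a, ha, rfl⟩ := Finset.mem_image.1 hb
      obtain ⟨ha1, ha2⟩ := Finset.mem_filter.1 ha
      obtain ⟨ha0, haM⟩ := mem_IdM.1 ha1
      have h1 := hβ a ha
      refine ⟨?_, fun p hp hd => ?_⟩
      · intro h
        rw [h, Ideal.mul_bot] at h1
        exact ha0 h1
      · have h3 : p ∣ a := by
          rw [h1]
          exact Dvd.dvd.mul_left hd _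
        rw [Finset.mem_union]
        by_cases hf : p ∣ 𝔣
        · left
          exact Finset.mem_filter.2 ⟨(mem_dvs h𝔣).2 hf, hp⟩
        · right
          rw [← ha2]
          exact Finset.mem_filter.2 ⟨mem_Pr.2 ⟨hp, hf, (nm_le_of_dvd ha0 h3).trans haM⟩, h3⟩
  have e3 : ∏ p ∈ Q ∪ E, (1 - (nm p)⁻¹)⁻¹ = D⁻¹ * ∏ p ∈ E, (1 - (nm p)⁻¹)⁻¹ := by
    rw [Finset.prod_union hdisj, hDdef, ← Finset.prod_inv_distrib]
    congr 1
    refine Finset.prod_congr rfl fun p _ => ?_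
    rw [one_div]
  have e4 : (nA nm E)⁻¹ * ∏ p ∈ E, (1 - (nm p)⁻¹)⁻¹ = (ph nm E)⁻¹ := by
    unfold nA ph
    rw [← Finset.prod_inv_distrib, ← Finset.prod_inv_distrib, ← Finset.prod_mul_distrib]
    refine Finset.prod_congr rfl fun p hp => ?_
    have h2 := nm_prime (hEp p hp).1
    rw [← mul_inv]
    congr 1
    field_simp
  have hn : 0 ≤ (nA nm E)⁻¹ := by
    rw [inv_nonneg, ← nm_prod]
    unfold nm
    positivity
  calc D * ∑ a ∈ F, (nm a)⁻¹ = D * ((nA nm E)⁻¹ * ∑ b ∈ F.image β, (nm b)⁻¹) := by rw [e1]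
    _ ≤ D * ((nA nm E)⁻¹ * (D⁻¹ * ∏ p ∈ E, (1 - (nm p)⁻¹)⁻¹)) := by
        rw [← e3]
        exact mul_le_mul_of_nonneg_left (mul_le_mul_of_nonneg_left e2 hn) hD.le
    _ = (nA nm E)⁻¹ * ∏ p ∈ E, (1 - (nm p)⁻¹)⁻¹ := by
        field_simp
    _ = (ph nm E)⁻¹ := e4

end Pool.Agent.Y474.NV
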